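import Pool.Agent.H47.ST.Targets

/-!
# MP_78620a_co: row GST, the gap map of `step w p`
-/

namespace Pool.Agent.H4.STK

open Finset Pool.Agent.H47.ST

theorem nr_map_succ (v : List ℕ) : ∀ h, nr (h + 1) (v.map Nat.succ) = nr h v := by
  induction v with
  | nil => intro h; rfl
  | cons a v ih =>
    intro h
    simp only [List.map_cons, nr, Nat.succ_eq_add_one, Nat.add_le_add_iff_right]
    rw [ih (a + 1), ih h]

theorem nr_zero_map_succ (v : List ℕ) : nr 0 (v.map Nat.succ) = nr 0 v := by
  cases v with
  | nil => rfl
  | cons a v =>
    simp only [List.map_cons, nr, Nat.succ_eq_add_one, Nat.zero_le, if_true]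
    exact nr_map_succ v (a + 1)

theorem nr_insert (a b : List ℕ) : ∀ h, nr (h + 1) (a ++ 0 :: b) = nr (h + 1) (a ++ b) + 1 := by
  induction a with
  | nil =>
    intro h
    simp only [List.nil_append, nr, Nat.le_zero, Nat.add_eq_zero_iff, one_ne_zero, and_false,
      if_false]
    omega
  | cons x a ih =>
    intro h
    simp only [List.cons_append, nr]
    rw [ih x, ih h]
    split_ifs <;> omega

theorem pf_GST : T_GST := by
  intro w p q hp hq
  unfold gT step
  have hlen : ((w.map Nat.succ).take p).length = p := by
    rw [List.length_take, List.length_map, min_eq_left hp]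
  rcases lt_trichotomy q p with h | h | h
  · rw [if_pos h]
    rw [List.drop_append_of_le_length (by omega)]
    have h1 : ((w.map Nat.succ).take p).drop q ++ (w.map Nat.succ).drop p =
        (w.drop q).map Nat.succ := by
      rw [← List.drop_append_of_le_length (by omega), List.take_append_drop, List.map_drop]
    obtain ⟨x, a, hxa⟩ : ∃ x a, ((w.map Nat.succ).take p).drop q = x :: a := by
      apply List.exists_cons_of_length_pos
      rw [List.length_drop, hlen]
      omega
    rw [hxa] at h1 ⊢
    rw [← nr_zero_map_succ (w.drop q), ← h1]
    simp only [List.cons_append, nr, Nat.zero_le, if_true]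
    exact nr_insert _ _ _
  · subst h
    rw [if_neg (lt_irrefl _), if_pos rfl]
    rw [List.drop_left' hlen]
    simp only [nr, le_refl, if_true]
    rw [← List.map_drop]
    exact nr_map_succ _ 0
  · rw [if_neg (by omega), if_neg (by omega)]
    have h1 : q = p + (q - p - 1 + 1) := by omega
    have h2 : ((w.map Nat.succ).take p ++ 0 :: (w.map Nat.succ).drop p).drop q =
        (w.map Nat.succ).drop (q - 1) := by
      conv_lhs => rw [h1]
      rw [← List.drop_drop, List.drop_left' hlen, List.drop_succ_cons, List.drop_drop]
      congr 1
      omega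
    rw [h2, ← List.map_drop]
    exact nr_zero_map_succ _

end Pool.Agent.H4.STK
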