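import Pool.Agent.H47.ST.Targets

/-!
# MP_78620a_co: row O, a block seen from outside
-/

namespace Pool.Agent.H4.STK

open Finset Pool.Agent.H47.ST

theorem o_point (e hl hl2 H r hr r2 hr2 : ℕ) (he : e < 2) (h1 : hl ≤ H)
    (h2 : hl2 = hl ∨ (hl2 = hl + 1 ∧ hl = H ∧ 1 ≤ hl ∧ (hl - 1) % 2 = e))
    (h3 : r2 = if H ≤ r ∧ r % 2 = e then r + 1 else r)
    (h4 : hr2 = if (if H ≤ r then r + 1 else H) < hr ∧ (hr - 1) % 2 = e then hr + 1 else hr) :
    Lh e hl r hr ≤ Lh e hl2 r2 hr2 ∧ (walker hl2 r2 hr2 → walker hl r hr) ∧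
    (pend e hl2 r2 hr2 → pend e hl r hr) ∧
    (H ≤ r → r % 2 = e → r + 1 < hr → pend e hl r hr ∧ ¬ pend e hl2 r2 hr2) := by
  unfold Lh cl walker pend
  rcases (by omega : e = 0 ∨ e = 1) with rfl | rfl
  · by_cases c1 : H ≤ r
    · by_cases c2 : r % 2 = 0
      · rw [if_pos ⟨c1, c2⟩] at h3
        rw [if_pos c1] at h4
        subst h3
        split_ifs at h4 <;> subst h4 <;> refine ⟨?_, ?_, ?_, ?_⟩ <;>
          (try split_ifs) <;> omega
      · rw [if_neg (fun h => c2 h.2)] at h3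
        rw [if_pos c1] at h4
        subst h3
        split_ifs at h4 <;> subst h4 <;> refine ⟨?_, ?_, ?_, ?_⟩ <;>
          (try split_ifs) <;> omega
    · rw [if_neg (fun h => c1 h.1)] at h3
      rw [if_neg c1] at h4
      subst h3
      split_ifs at h4 <;> subst h4 <;> refine ⟨?_, ?_, ?_, ?_⟩ <;>
          (try split_ifs) <;> omega
  · by_cases c1 : H ≤ r
    · by_cases c2 : r % 2 = 1
      · rw [if_pos ⟨c1, c2⟩] at h3
        rw [if_pos c1] at h4
        subst h3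
        split_ifs at h4 <;> subst h4 <;> refine ⟨?_, ?_, ?_, ?_⟩ <;>
          (try split_ifs) <;> omega
      · rw [if_neg (fun h => c2 h.2)] at h3
        rw [if_pos c1] at h4
        subst h3
        split_ifs at h4 <;> subst h4 <;> refine ⟨?_, ?_, ?_, ?_⟩ <;>
          (try split_ifs) <;> omega
    · rw [if_neg (fun h => c1 h.1)] at h3
      rw [if_neg c1] at h4
      subst h3
      split_ifs at h4 <;> subst h4 <;> refine ⟨?_, ?_, ?_, ?_⟩ <;>
          (try split_ifs) <;> omega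

theorem wt_nonneg (R : ℕ) {W U : ℝ} (hW : 1 ≤ W) (hU : 1 ≤ U) (e hl r hr : ℕ) :
    0 ≤ wt R W U e hl r hr := by
  unfold wt
  have := Real.exp_pos (((R : ℝ) + 1 - (Lh e hl r hr : ℝ)) / R)
  have h1 : (0 : ℝ) ≤ if walker hl r hr then W else 1 := by split_ifs <;> linarith
  have h2 : (0 : ℝ) ≤ if pend e hl r hr then U else 1 := by split_ifs <;> linarith
  exact mul_nonneg (mul_nonneg this.le h1) h2

theorem phC_nonneg (R : ℕ) {W U : ℝ} (hW : 1 ≤ W) (hU : 1 ≤ U) (e : ℕ) (B : List ℕ) :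
    ∀ hl hr, 0 ≤ phC R W U e hl B hr := by
  induction B with
  | nil => intro hl hr; simp [phC]
  | cons r B ih =>
    intro hl hr
    simp only [phC]
    exact mul_nonneg (wt_nonneg R hW hU _ _ _ _) (ih _ _)

theorem exp_Lh_le (R a b : ℕ) (h : a ≤ b) :
    Real.exp (((R : ℝ) + 1 - (b : ℝ)) / R) ≤ Real.exp (((R : ℝ) + 1 - (a : ℝ)) / R) := by
  apply Real.exp_le_exp.mpr
  have h1 : (a : ℝ) ≤ b := by exact_mod_cast h
  exact div_le_div_of_nonneg_right (by linarith) (Nat.cast_nonneg R)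

theorem wt_le (R : ℕ) {W U : ℝ} (hW : 1 ≤ W) (hU : 1 ≤ U) (e hl r hr hl2 r2 hr2 : ℕ)
    (h1 : Lh e hl r hr ≤ Lh e hl2 r2 hr2) (h2 : walker hl2 r2 hr2 → walker hl r hr)
    (h3 : pend e hl2 r2 hr2 → pend e hl r hr) :
    wt R W U e hl2 r2 hr2 ≤ wt R W U e hl r hr := by
  unfold wt
  have a1 := exp_Lh_le R _ _ h1
  have a2 : (if walker hl2 r2 hr2 then W else 1) ≤ if walker hl r hr then W else 1 := by
    by_cases c : walker hl2 r2 hr2
    · rw [if_pos c, if_pos (h2 c)]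
    · rw [if_neg c]; split_ifs <;> linarith
  have a3 : (if pend e hl2 r2 hr2 then U else 1) ≤ if pend e hl r hr then U else 1 := by
    by_cases c : pend e hl2 r2 hr2
    · rw [if_pos c, if_pos (h3 c)]
    · rw [if_neg c]; split_ifs <;> linarith
  have b2 : (0 : ℝ) ≤ if walker hl2 r2 hr2 then W else 1 := by split_ifs <;> linarith
  have b3 : (0 : ℝ) ≤ if pend e hl2 r2 hr2 then U else 1 := by split_ifs <;> linarith
  have b4 : (0 : ℝ) ≤ if walker hl r hr then W else 1 := le_trans b2 a2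
  exact mul_le_mul (mul_le_mul a1 a2 b2 (Real.exp_pos _).le) a3 b3
    (mul_nonneg (Real.exp_pos _).le b4)

theorem wt_pop (R : ℕ) {W U : ℝ} (hW : 1 ≤ W) (hU : 1 ≤ U) (e hl r hr hl2 r2 hr2 : ℕ)
    (h1 : Lh e hl r hr ≤ Lh e hl2 r2 hr2) (h2 : walker hl2 r2 hr2 → walker hl r hr)
    (h3 : pend e hl r hr) (h4 : ¬ pend e hl2 r2 hr2) :
    wt R W U e hl2 r2 hr2 * U ≤ wt R W U e hl r hr := by
  unfold wt
  have a1 := exp_Lh_le R _ _ h1
  have a2 : (if walker hl2 r2 hr2 then W else 1) ≤ if walker hl r hr then W else 1 := by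
    by_cases c : walker hl2 r2 hr2
    · rw [if_pos c, if_pos (h2 c)]
    · rw [if_neg c]; split_ifs <;> linarith
  have b2 : (0 : ℝ) ≤ if walker hl2 r2 hr2 then W else 1 := by split_ifs <;> linarith
  rw [if_pos h3, if_neg h4, mul_one]
  exact mul_le_mul_of_nonneg_right (mul_le_mul a1 a2 b2 (Real.exp_pos _).le) (by linarith)

theorem o_main (h1 : T_TOP) (R : ℕ) (W U : ℝ) (e : ℕ) (hW : 1 ≤ W) (hU : 1 ≤ U) (he : e < 2)
    (B : List ℕ) : ∀ hl hl2 H : ℕ, hl ≤ H →
    (hl2 = hl ∨ (hl2 = hl + 1 ∧ hl = H ∧ 1 ≤ hl ∧ (hl - 1) % 2 = e)) →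
    phC R W U e hl2 (up e H B) 0 * U ^ (vis e H B).card ≤ phC R W U e hl B 0 := by
  induction B with
  | nil =>
    intro hl hl2 H _ _
    simp [phC, up, vis]
  | cons r B ih =>
    intro hl hl2 H hH hrel
    obtain ⟨-, -, -, htop⟩ := h1
    by_cases c1 : H ≤ r
    · obtain ⟨r2, hr2⟩ : ∃ r2, r2 = if H ≤ r ∧ r % 2 = e then r + 1 else r := ⟨_, rfl⟩
      have hr2' : (if r % 2 = e then r + 1 else r) = r2 := by
        rw [hr2]
        by_cases c2 : r % 2 = e
        · rw [if_pos c2, if_pos ⟨c1, c2⟩]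
        · rw [if_neg c2, if_neg (fun h => c2 h.2)]
      obtain ⟨hr3, hhr3⟩ : ∃ hr3, hr3 = top 0 (up e (r + 1) B) := ⟨_, rfl⟩
      have hhr4 := hhr3
      rw [htop] at hhr4
      obtain ⟨p1, p2, p3, p4⟩ := o_point e hl hl2 H r (top 0 B) r2 hr3 he hH hrel hr2
        (by rw [if_pos c1]; exact hhr4)
      have hrec := ih (max hl (r + 1)) (max hl2 (r2 + 1)) (r + 1) (by omega) (by
        split_ifs at hr2 <;> omega)
      have hcard : (vis e H (r :: B)).card ≤
          (if r % 2 = e ∧ r + 1 < top 0 B then 1 else 0) + (vis e (r + 1) B).card := by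
        simp only [vis, if_pos c1]
        refine le_trans (card_union_le _ _) ?_
        split_ifs <;> simp
      simp only [up, if_pos c1, hr2', phC, Nat.max_zero, ← hhr3]
      have hn1 := phC_nonneg R hW hU e (up e (r + 1) B) (max hl2 (r2 + 1)) 0
      have hn2 := wt_nonneg R hW hU e hl2 r2 hr3
      have hn3 := wt_nonneg R hW hU e hl r (top 0 B)
      have hw : wt R W U e hl2 r2 hr3 * U ^ (if r % 2 = e ∧ r + 1 < top 0 B then 1 else 0) ≤
          wt R W U e hl r (top 0 B) := by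
        by_cases c3 : r % 2 = e ∧ r + 1 < top 0 B
        · rw [if_pos c3, pow_one]
          obtain ⟨q1, q2⟩ := p4 c1 c3.1 c3.2
          exact wt_pop R hW hU e hl r _ hl2 r2 hr3 p1 p2 q1 q2
        · rw [if_neg c3, pow_zero, mul_one]
          exact wt_le R hW hU e hl r _ hl2 r2 hr3 p1 p2 p3
      calc wt R W U e hl2 r2 hr3 * phC R W U e (max hl2 (r2 + 1)) (up e (r + 1) B) 0 *
            U ^ (vis e H (r :: B)).card
          ≤ wt R W U e hl2 r2 hr3 * phC R W U e (max hl2 (r2 + 1)) (up e (r + 1) B) 0 *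
            U ^ ((if r % 2 = e ∧ r + 1 < top 0 B then 1 else 0) + (vis e (r + 1) B).card) :=
            mul_le_mul_of_nonneg_left (pow_le_pow_right₀ hU hcard) (mul_nonneg hn2 hn1)
        _ = (wt R W U e hl2 r2 hr3 * U ^ (if r % 2 = e ∧ r + 1 < top 0 B then 1 else 0)) *
            (phC R W U e (max hl2 (r2 + 1)) (up e (r + 1) B) 0 * U ^ (vis e (r + 1) B).card) := by
            rw [pow_add]; ring
        _ ≤ wt R W U e hl r (top 0 B) * phC R W U e (max hl (r + 1)) B 0 :=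
            mul_le_mul hw hrec (mul_nonneg hn1 (by positivity)) hn3
    · obtain ⟨hr3, hhr3⟩ : ∃ hr3, hr3 = top 0 (up e H B) := ⟨_, rfl⟩
      have hhr4 := hhr3
      rw [htop] at hhr4
      obtain ⟨p1, p2, p3, p4⟩ := o_point e hl hl2 H r (top 0 B) r hr3 he hH hrel
        (by rw [if_neg (fun h => c1 h.1)])
        (by rw [if_neg c1]; exact hhr4)
      have hrec := ih (max hl (r + 1)) (max hl2 (r + 1)) H (by omega) (by omega)
      simp only [up, vis, if_neg c1, phC, Nat.max_zero, ← hhr3]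
      have hn1 := phC_nonneg R hW hU e (up e H B) (max hl2 (r + 1)) 0
      have hn2 := wt_nonneg R hW hU e hl2 r hr3
      have hn3 := wt_nonneg R hW hU e hl r (top 0 B)
      have hw := wt_le R hW hU e hl r _ hl2 r hr3 p1 p2 p3
      rw [mul_assoc]
      exact mul_le_mul hw hrec (mul_nonneg hn1 (by positivity)) hn3

theorem pf_O (h1 : T_TOP) : T_O := by
  intro R W U e h B hW hU he
  exact o_main h1 R W U e hW hU he B 0 0 h (Nat.zero_le _) (Or.inl rfl)

end Pool.Agent.H4.STK
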